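import Mathlib
import Pool.Agent.H998.LT.Defs2

set_option autoImplicit false

open MeasureTheory Real
open scoped FourierTransform ComplexConjugate ENNReal Pointwise

namespace Pool.Agent.H30.LT

noncomputable section

open Pool.Agent.H998.LT

variable {d : ℕ}

theorem e_add (s t : ℝ) : e (s + t) = e s * e t := by
  unfold e
  rw [← Complex.exp_add]
  congr 1
  push_cast
  ring

theorem e_int (n : ℤ) : e (n : ℝ) = 1 := by
  unfold e
  rw [Complex.exp_eq_one_iff]
  exact ⟨n, by push_cast; ring⟩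

theorem e_norm (t : ℝ) : ‖e t‖ = 1 := by
  unfold e
  have : (2 * (π : ℂ) * (t : ℂ) * Complex.I) = ((2 * π * t : ℝ) : ℂ) * Complex.I := by push_cast; ring
  rw [this, Complex.norm_exp_ofReal_mul_I]

theorem e_cont : Continuous e := by
  unfold e
  fun_prop

theorem e_half : e (-(1 / 2 : ℝ)) = -1 := by
  unfold e
  have : (2 * (π : ℂ) * ((-(1 / 2 : ℝ) : ℝ) : ℂ) * Complex.I) = -(π * Complex.I) := by push_cast; ring
  rw [this, Complex.exp_neg, Complex.exp_pi_mul_I]
  norm_num

/-- the character -/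
def chi (ξ v : Fin d → ℝ) : ℂ := e (-(∑ i, ξ i * v i))

theorem chi_add (ξ v w : Fin d → ℝ) : chi ξ (v + w) = chi ξ v * chi ξ w := by
  unfold chi
  rw [← e_add]
  congr 1
  simp only [Pi.add_apply, mul_add, Finset.sum_add_distrib]
  ring

theorem chi_cont (ξ : Fin d → ℝ) : Continuous (chi ξ) := by
  unfold chi
  exact e_cont.comp (by fun_prop)

theorem key (b : Module.Basis (Fin d) ℝ (Fin d → ℝ)) (f : (Fin d → ℝ) → ℝ) (hf : Integrable f)
    (w' : ℝ) (ht : ∀ᵐ x : Fin d → ℝ,
      HasSum (fun a : (Submodule.span ℤ (Set.range b)) => f (x - (a : Fin d → ℝ))) w')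
    (ξ : Fin d → ℝ) (hξ : ξ ≠ 0)
    (hper : ∀ g : (Submodule.span ℤ (Set.range b)), ∃ n : ℤ, ∑ i, ξ i * (g : Fin d → ℝ) i = n) :
    ∫ v : Fin d → ℝ, (f v : ℂ) * chi ξ v = 0 := by
  have hD := ZSpan.isAddFundamentalDomain b (volume : Measure (Fin d → ℝ))
  have hinv : VAddInvariantMeasure (Submodule.span ℤ (Set.range b)) (Fin d → ℝ) volume :=
    ⟨fun c s _ => by
      have h := measure_preimage_add (volume : Measure (Fin d → ℝ)) (c : Fin d → ℝ) s
      exact h⟩
  set D := ZSpan.fundamentalDomain b with hDdef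
  -- the integral of the character over the fundamental domain
  have hg1 : ∀ g : (Submodule.span ℤ (Set.range b)), chi ξ (-(g : Fin d → ℝ)) = 1 := by
    intro g
    obtain ⟨n, hn⟩ := hper g
    unfold chi
    have : -(∑ i, ξ i * (-(g : Fin d → ℝ)) i) = (n : ℝ) := by
      rw [← hn]
      simp
    rw [this, e_int]
  have hg1' : ∀ g : (Submodule.span ℤ (Set.range b)), chi ξ (g : Fin d → ℝ) = 1 := by
    intro g
    have h := hg1 (-g)
    simpa using h
  have hchi0 : ∫ x in D, chi ξ x = 0 := by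
    have hs : 0 < ∑ i, ξ i * ξ i := by
      have h0 : ∃ i, ξ i ≠ 0 := by
        by_contra h
        push Not at h
        exact hξ (funext h)
      obtain ⟨i, hi⟩ := h0
      exact Finset.sum_pos' (fun j _ => mul_self_nonneg _) ⟨i, Finset.mem_univ _, mul_self_pos.2 hi⟩
    set y : Fin d → ℝ := fun i => ξ i / (2 * ∑ i, ξ i * ξ i) with hy
    have hchiy : chi ξ y = -1 := by
      unfold chi
      rw [← e_half]
      congr 2
      have : ∀ i, ξ i * y i = (ξ i * ξ i) / (2 * ∑ i, ξ i * ξ i) := by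
        intro i
        simp only [hy]
        ring
      rw [Finset.sum_congr rfl (fun i _ => this i), ← Finset.sum_div]
      have hs' : (∑ i, ξ i * ξ i) ≠ 0 := hs.ne'
      rw [mul_comm (2 : ℝ), ← div_div, div_self hs']
    have hD' := hD.vadd_of_comm y
    have h1 : ∫ x in D, chi ξ x = ∫ x in (y +ᵥ D), chi ξ x := by
      refine hD.setIntegral_eq hD' ?_
      intro g x
      have : g +ᵥ x = (g : Fin d → ℝ) + x := rfl
      rw [this, chi_add, hg1', one_mul]
    have h2 : ∫ x in (y +ᵥ D), chi ξ x = ∫ x in D, chi ξ (y + x) := by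
      have := (measurePreserving_vadd y (volume : Measure (Fin d → ℝ))).setIntegral_image_emb
        (measurableEmbedding_const_vadd y) (chi ξ) D
      exact this
    have h3 : ∫ x in D, chi ξ (y + x) = - ∫ x in D, chi ξ x := by
      rw [← integral_neg]
      refine integral_congr_ae (Filter.Eventually.of_forall fun x => ?_)
      simp only [chi_add, hchiy]
      ring
    have h4 : ∫ x in D, chi ξ x = - ∫ x in D, chi ξ x := by
      rw [← h3, ← h2, ← h1]
    have h5 : (2 : ℂ) * ∫ x in D, chi ξ x = 0 := by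
      rw [two_mul]
      nth_rewrite 2 [h4]
      ring
    simpa using h5
  -- unfolding
  have hF : Integrable (fun v : Fin d → ℝ => (f v : ℂ) * chi ξ v) := by
    refine Integrable.mul_bdd (c := 1) (hf.ofReal) (chi_cont ξ).aestronglyMeasurable ?_
    exact Filter.Eventually.of_forall fun x => (e_norm _).le
  rw [hD.integral_eq_tsum' _ hF]
  have hcomp : ∀ g : (Submodule.span ℤ (Set.range b)), ∀ x : Fin d → ℝ,
      (f (-g +ᵥ x) : ℂ) * chi ξ (-g +ᵥ x) = (f (x - (g : Fin d → ℝ)) : ℂ) * chi ξ x := by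
    intro g x
    have : -g +ᵥ x = -(g : Fin d → ℝ) + x := rfl
    rw [this, chi_add, hg1, one_mul]
    congr 3
    abel
  have hsum : ∑' g : (Submodule.span ℤ (Set.range b)), ∫ x in D, (f (-g +ᵥ x) : ℂ) * chi ξ (-g +ᵥ x)
      = ∫ x in D, ∑' g : (Submodule.span ℤ (Set.range b)), (f (-g +ᵥ x) : ℂ) * chi ξ (-g +ᵥ x) := by
    symm
    apply integral_tsum
    · intro g
      have h1 : Integrable (fun x : Fin d → ℝ => (f (-g +ᵥ x) : ℂ) * chi ξ (-g +ᵥ x)) :=
        (measurePreserving_vadd (-g) (volume : Measure (Fin d → ℝ))).integrable_comp_of_integrable hF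
      exact h1.aestronglyMeasurable.restrict
    · rw [← hD.lintegral_eq_tsum' (fun x => ‖(f x : ℂ) * chi ξ x‖ₑ)]
      exact hF.2.ne
  rw [hsum]
  have hlast : ∫ x in D, ∑' g : (Submodule.span ℤ (Set.range b)),
      (f (-g +ᵥ x) : ℂ) * chi ξ (-g +ᵥ x) = ∫ x in D, (w' : ℂ) * chi ξ x := by
    refine integral_congr_ae ?_
    have := ae_restrict_of_ae (s := D) ht
    filter_upwards [this] with x hx
    simp only [hcomp]
    rw [tsum_mul_right]
    congr 1
    have h := (Complex.hasSum_ofReal (f := fun a : (Submodule.span ℤ (Set.range b)) =>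
      f (x - (a : Fin d → ℝ)))).2 hx
    exact h.tsum_eq
  rw [hlast, integral_const_mul, hchi0, mul_zero]

theorem t_dualD : Pool.Agent.H998.LT.S_dualD := by
  intro d f hf A hA w' ht ξ hξ hper
  let L : (Fin d → ℝ) ≃ₗ[ℝ] (Fin d → ℝ) := A.toLinearEquiv' (Matrix.invertibleOfIsUnitDet A (Ne.isUnit hA))
  let b : Module.Basis (Fin d) ℝ (Fin d → ℝ) := (Pi.basisFun ℝ (Fin d)).map L
  have hL : ∀ x, L x = A.mulVec x := fun x => rfl
  have hb : ∀ j, b j = A.mulVec (Pi.single j 1) := by
    intro j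
    simp only [b, Module.Basis.map_apply, Pi.basisFun_apply, hL]
  have hspan : ((Submodule.span ℤ (Set.range b) : Submodule ℤ (Fin d → ℝ)) : Set (Fin d → ℝ)) =
      Pool.Agent.H998.LT.lattice A := by
    ext x
    simp only [SetLike.mem_coe, Pool.Agent.H998.LT.lattice, Set.mem_range]
    rw [Submodule.mem_span_range_iff_exists_fun]
    constructor
    · rintro ⟨c, hc⟩
      refine ⟨c, ?_⟩
      rw [← hc]
      have : (fun i => (c i : ℝ)) = ∑ i, (c i : ℝ) • (Pi.single i (1 : ℝ) : Fin d → ℝ) := by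
        ext j
        simp [Finset.sum_apply, Pi.single_apply]
      rw [this, Matrix.mulVec_sum]
      refine Finset.sum_congr rfl fun i _ => ?_
      rw [Matrix.mulVec_smul, hb]
      exact (Int.cast_smul_eq_zsmul ℝ _ _)
    · rintro ⟨c, hc⟩
      refine ⟨c, ?_⟩
      rw [← hc]
      have : (fun i => (c i : ℝ)) = ∑ i, (c i : ℝ) • (Pi.single i (1 : ℝ) : Fin d → ℝ) := by
        ext j
        simp [Finset.sum_apply, Pi.single_apply]
      rw [this, Matrix.mulVec_sum]
      refine Finset.sum_congr rfl fun i _ => ?_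
      rw [Matrix.mulVec_smul, hb]
      exact (Int.cast_smul_eq_zsmul ℝ _ _).symm
  have hmem : ∀ x : Fin d → ℝ, x ∈ (Submodule.span ℤ (Set.range b) : Submodule ℤ (Fin d → ℝ)) ↔
      x ∈ Pool.Agent.H998.LT.lattice A := by
    intro x
    rw [← hspan]
    rfl
  have hperb : ∀ g : (Submodule.span ℤ (Set.range b)), ∃ n : ℤ,
      ∑ i, ξ i * (g : Fin d → ℝ) i = n := by
    rintro ⟨g, hg⟩
    obtain ⟨z, rfl⟩ := (hmem g).1 hg
    exact hper z
  have htb : ∀ᵐ x : Fin d → ℝ,
      HasSum (fun a : (Submodule.span ℤ (Set.range b)) => f (x - (a : Fin d → ℝ))) w' := by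
    unfold Tiles at ht
    filter_upwards [ht] with x hx
    let eq : (Submodule.span ℤ (Set.range b) : Submodule ℤ (Fin d → ℝ)) ≃ Pool.Agent.H998.LT.lattice A :=
      Equiv.subtypeEquivRight hmem
    exact (eq.hasSum_iff (f := fun a : Pool.Agent.H998.LT.lattice A => f (x - a))).2 hx
  exact key b f hf w' htb ξ hξ hperb

end

end Pool.Agent.H30.LT
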